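import Pool.Agent.Helper80.Stack.Goals

/-!
# BLOCK: from a layering to a stack layout
-/

set_option autoImplicit false

namespace Pool.Agent.Helper90.Stk

open Pool.Agent.Helper80.Stk
open Classical

noncomputable section

variable {V : Type}

/-- the block number -/
def TT (ρ j : V → ℤ) (v : V) : ℤ := 2 * j v + 3 * ρ v

/-- the direction of a block -/
def sg (t : ℤ) : ℤ := if Even t then 1 else -1

/-- the key of a vertex -/
def key (ρ j : V → ℤ) (σ : V → ℕ) (v : V) : ℤ ×ₗ (ℤ ×ₗ ℤ) :=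
  toLex (TT ρ j v, toLex (sg (TT ρ j v) * j v, sg (TT ρ j v) * (σ v : ℤ)))

theorem key_lt {ρ j : V → ℤ} {σ : V → ℕ} {a b : V} :
    key ρ j σ a < key ρ j σ b ↔ TT ρ j a < TT ρ j b ∨ (TT ρ j a = TT ρ j b ∧
      (sg (TT ρ j a) * j a < sg (TT ρ j b) * j b ∨
        (sg (TT ρ j a) * j a = sg (TT ρ j b) * j b ∧
          sg (TT ρ j a) * (σ a : ℤ) < sg (TT ρ j b) * (σ b : ℤ)))) := by
  unfold key
  rw [Prod.Lex.toLex_lt_toLex]
  simp only
  rw [Prod.Lex.toLex_lt_toLex]

theorem sg_ne (t : ℤ) : sg t ≠ 0 := by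
  unfold sg
  split_ifs <;> norm_num

theorem key_inj {ρ j : V → ℤ} {σ : V → ℕ} (h : ∀ a b, j a = j b → σ a = σ b → a = b) :
    Function.Injective (key ρ j σ) := by
  intro a b hab
  unfold key at hab
  have h1 := congrArg ofLex hab
  simp only [ofLex_toLex] at h1
  rw [Prod.mk.injEq] at h1
  obtain ⟨h2, h3⟩ := h1
  have h4 := congrArg ofLex h3
  simp only [ofLex_toLex] at h4
  rw [Prod.mk.injEq] at h4
  obtain ⟨h5, h6⟩ := h4
  rw [h2] at h5 h6
  refine h a b (mul_left_cancel₀ (sg_ne _) h5) ?_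
  exact_mod_cast mul_left_cancel₀ (sg_ne _) h6

/-- the rank of a vertex -/
def rk [Fintype V] {K : Type} [LinearOrder K] (κ : V → K) (v : V) : ℕ :=
  (Finset.univ.filter (fun w => κ w < κ v)).card

theorem rk_lt [Fintype V] {K : Type} [LinearOrder K] {κ : V → K} {a b : V} :
    rk κ a < rk κ b ↔ κ a < κ b := by
  constructor
  · intro h
    by_contra hc
    push Not at hc
    refine absurd h (not_lt.2 (Finset.card_le_card ?_))
    intro w hw
    rw [Finset.mem_filter] at hw ⊢
    exact ⟨hw.1, lt_of_lt_of_le hw.2 hc⟩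
  · intro h
    refine Finset.card_lt_card ⟨?_, ?_⟩
    · intro w hw
      rw [Finset.mem_filter] at hw ⊢
      exact ⟨hw.1, hw.2.trans h⟩
    · intro hs
      have h1 : a ∈ Finset.univ.filter (fun w => κ w < κ b) :=
        Finset.mem_filter.2 ⟨Finset.mem_univ _, h⟩
      exact lt_irrefl _ (Finset.mem_filter.1 (hs h1)).2

theorem rk_inj [Fintype V] {K : Type} [LinearOrder K] {κ : V → K} (h : Function.Injective κ) :
    Function.Injective (rk κ) := by
  intro a b hab
  apply h
  rcases lt_trichotomy (κ a) (κ b) with h1 | h1 | h1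
  · exact absurd hab (rk_lt.2 h1).ne
  · exact h1
  · exact absurd hab.symm (rk_lt.2 h1).ne

/-- the colours -/
abbrev Co (c k0 : ℕ) : Type := Fin k0 × Fin 3 × Fin (c + 1) × Fin (3 * c + 4)

/-- reduce an integer modulo `n + 1` -/
def fz (n : ℕ) (z : ℤ) : Fin (n + 1) := Fin.ofNat (n + 1) z.toNat

theorem fz_inj {n : ℕ} {z w : ℤ} (hz : 0 ≤ z) (hz' : z ≤ n) (hw : 0 ≤ w) (hw' : w ≤ n)
    (h : fz n z = fz n w) : z = w := by
  unfold fz at h
  have h1 := congrArg Fin.val h
  simp only [Fin.ofNat] at h1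
  rw [Nat.mod_eq_of_lt (by omega), Nat.mod_eq_of_lt (by omega)] at h1
  omega

/-- the colour of an edge -/
def cc {c k0 : ℕ} (ρ j : V → ℤ) (col : V → V → Fin k0) (a b : V) : Co c k0 :=
  (col a b, fz 2 (j b - j a + 1), fz c (ρ b - ρ a),
    fz (3 * c + 3) (TT ρ j a % (TT ρ j b - TT ρ j a + 1)))

theorem pf_Block : StmtBlock := by
  intro c k0
  refine ⟨Fintype.card (Co c k0), ?_⟩
  intro V _ E ρ j σ col hρ hj hinj h4
  have : Fintype V := Fintype.ofFinite V
  have hT : ∀ a b, E a b → TT ρ j a < TT ρ j b ∧ TT ρ j b - TT ρ j a ≤ 3 * c + 2 ∧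
      Odd (TT ρ j b - TT ρ j a) := by
    intro a b hab
    obtain ⟨⟨m, hm⟩, h1, h2⟩ := hρ a b hab
    have h3 := abs_le.1 (hj a b hab)
    unfold TT
    refine ⟨by omega, by omega, ⟨j b - j a + 3 * m + 1, by omega⟩⟩
  refine ⟨rk (key ρ j σ), fun a b => Fintype.equivFin (Co c k0) (cc ρ j col a b), ?_, ?_, ?_⟩
  · exact rk_inj (key_inj hinj)
  · intro a b hab
    rw [rk_lt, key_lt]
    exact Or.inl (hT a b hab).1
  · rintro a b x y hab hxy hcol ⟨g1, g2, g3⟩
    have hcol' := (Fintype.equivFin (Co c k0)).injective hcol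
    rw [rk_lt, key_lt] at g1 g2 g3
    unfold cc at hcol'
    simp only [Prod.mk.injEq] at hcol'
    obtain ⟨c1, c2, c3, c4⟩ := hcol'
    obtain ⟨t1, t2, t3⟩ := hT a b hab
    obtain ⟨t1', t2', t3'⟩ := hT x y hxy
    obtain ⟨-, p1, p2⟩ := hρ a b hab
    obtain ⟨-, p1', p2'⟩ := hρ x y hxy
    have q := abs_le.1 (hj a b hab)
    have q' := abs_le.1 (hj x y hxy)
    have e2 : j b - j a = j y - j x := by
      have := fz_inj (by omega) (by push_cast; omega) (by omega) (by push_cast; omega) c2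
      omega
    have e3 : ρ b - ρ a = ρ y - ρ x :=
      fz_inj (by omega) (by omega) (by omega) (by omega) c3
    have eD : TT ρ j b - TT ρ j a = TT ρ j y - TT ρ j x := by
      unfold TT
      omega
    have hD : 0 < TT ρ j b - TT ρ j a + 1 := by omega
    have e4 : TT ρ j a % (TT ρ j b - TT ρ j a + 1) = TT ρ j x % (TT ρ j b - TT ρ j a + 1) := by
      rw [← eD] at c4
      have b1 := Int.emod_nonneg (TT ρ j a) hD.ne'
      have b2 := Int.emod_lt_of_pos (TT ρ j a) hD
      have b3 := Int.emod_nonneg (TT ρ j x) hD.ne'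
      have b4 := Int.emod_lt_of_pos (TT ρ j x) hD
      exact fz_inj b1 (by push_cast; omega) b3 (by push_cast; omega) c4
    have f1 : TT ρ j a ≤ TT ρ j x := by
      rcases g1 with g | g
      · exact g.le
      · exact g.1.le
    have f2 : TT ρ j x ≤ TT ρ j b := by
      rcases g2 with g | g
      · exact g.le
      · exact g.1.le
    have f3 : TT ρ j x = TT ρ j a := by
      have h5 : (TT ρ j x - TT ρ j a) % (TT ρ j b - TT ρ j a + 1) = 0 := by
        rw [Int.sub_emod, e4]
        simp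
      rw [Int.emod_eq_of_lt (by omega) (by omega)] at h5
      omega
    have f4 : TT ρ j y = TT ρ j b := by omega
    rw [f3] at g1
    rw [f4] at g3
    have g1' := g1.resolve_left (lt_irrefl _)
    have g3' := g3.resolve_left (lt_irrefl _)
    obtain ⟨-, g1''⟩ := g1'
    obtain ⟨-, g3''⟩ := g3'
    by_cases hE : Even (TT ρ j a)
    · have hO : ¬ Even (TT ρ j b) := by
        rw [Int.not_even_iff_odd]
        have := hE.add_odd t3
        rwa [add_sub_cancel] at this
      have s1 : sg (TT ρ j a) = 1 := if_pos hE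
      have s2 : sg (TT ρ j b) = -1 := if_neg hO
      rw [s1] at g1''
      rw [s2] at g3''
      have z1 : j a = j x := by omega
      have z2 : j b = j y := by omega
      refine h4 a b x y hab hxy c1 z1 z2 ⟨by omega, by omega⟩
    · have hO : Even (TT ρ j b) := by
        rw [Int.not_even_iff_odd] at hE
        have := hE.add_odd t3
        rwa [add_sub_cancel] at this
      have s1 : sg (TT ρ j a) = -1 := if_neg hE
      have s2 : sg (TT ρ j b) = 1 := if_pos hO
      rw [s1] at g1''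
      rw [s2] at g3''
      have z1 : j a = j x := by omega
      have z2 : j b = j y := by omega
      refine h4 x y a b hxy hab c1.symm z1.symm z2.symm ⟨by omega, by omega⟩

end

end Pool.Agent.Helper90.Stk
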